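import Pool.Agent.H43.FlwD

open Manifold Pool.Agent.H43.Flw Pool.Agent.H43.FlwD

namespace Pool.Agent.Results.MP_a86bc9_an.SpanOsc

theorem result : ∃ ψ : ℝ → T3 → T3, IsFlow ψ ∧
    ∃ D : T3 → T3 → ℝ, IsMetric D ∧ ∃ ε > 0, Osc fun T => span (DT ψ D T) ε :=
  ⟨φ, ⟨φ_sm, φ_zero, φ_add⟩, q2.imp fun _ h => ⟨h.1, 1, one_pos, h.2⟩⟩

end Pool.Agent.Results.MP_a86bc9_an.SpanOsc
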